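import Pool.Agent.X234.KR.Build
import Pool.Agent.X234.TD.KC

/-!
The clock is bounded.
-/

set_option autoImplicit false

namespace Pool.Agent.X234.KR

open Pool.Agent.Helper227 Finset Encodable

/-- the discrete maximal inequality -/
theorem maximal (F : ℕ → ℕ) (hF : Monotone F) (θ K : ℕ) :
    θ * ((Finset.range K).filter fun i => ∃ j ≤ i, θ * (i + 1 - j) + F j < F (i + 1)).card ≤ F K := by
  classical
  induction K using Nat.strong_induction_on with
  | _ K ih =>
    rcases K with _ | K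
    · simp
    by_cases h : ∃ j ≤ K, θ * (K + 1 - j) + F j < F (K + 1)
    · obtain ⟨j, hj, h1⟩ := h
      have h2 : ((Finset.range (K + 1)).filter fun i => ∃ j ≤ i, θ * (i + 1 - j) + F j < F (i + 1)).card ≤
          ((Finset.range j).filter fun i => ∃ j ≤ i, θ * (i + 1 - j) + F j < F (i + 1)).card +
            (K + 1 - j) := by
        have h3 : ((Finset.range (K + 1)).filter fun i => ∃ j ≤ i, θ * (i + 1 - j) + F j < F (i + 1)) ⊆
            ((Finset.range j).filter fun i => ∃ j ≤ i, θ * (i + 1 - j) + F j < F (i + 1)) ∪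
              Finset.Ico j (K + 1) := by
          intro i hi
          rw [Finset.mem_filter, Finset.mem_range] at hi
          rw [Finset.mem_union, Finset.mem_filter, Finset.mem_range, Finset.mem_Ico]
          rcases Nat.lt_or_ge i j with h4 | h4
          · exact Or.inl ⟨h4, hi.2⟩
          · exact Or.inr ⟨h4, hi.1⟩
        refine (Finset.card_le_card h3).trans ((Finset.card_union_le _ _).trans ?_)
        rw [Nat.card_Ico]
      have h3 := ih j (by omega)
      calc _ ≤ θ * (((Finset.range j).filter fun i => ∃ j ≤ i, θ * (i + 1 - j) + F j < F (i + 1)).card +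
            (K + 1 - j)) := Nat.mul_le_mul_left _ h2
        _ ≤ F (K + 1) := by rw [Nat.mul_add]; omega
    · have h2 : ((Finset.range (K + 1)).filter fun i => ∃ j ≤ i, θ * (i + 1 - j) + F j < F (i + 1)) =
          ((Finset.range K).filter fun i => ∃ j ≤ i, θ * (i + 1 - j) + F j < F (i + 1)) := by
        rw [Finset.range_add_one, Finset.filter_insert, if_neg h]
      rw [h2]
      exact (ih K (by omega)).trans (hF (Nat.le_succ K))

variable {g : ℕ → List Bool → ℕ}

theorem sm_eq (m N : ℕ) (x : List Bool) : sm g (hist g m) m N x =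
    ∑ n ∈ Finset.range m, if N ≤ n then
      (Y g (n + 1) - 2 * Y g n) * 2 ^ (m - n) * g m (x.take n) else 0 := by
  unfold sm
  refine Finset.sum_congr rfl fun n hn => ?_
  rw [Finset.mem_range] at hn
  rw [getD_hist (by omega), getD_hist (by omega)]

/-- the number of cells of size `2 ^ (-M)` below the time `n` -/
def aa (g : ℕ → List Bool → ℕ) (M n : ℕ) : ℕ := Y g n * 2 ^ (M - n)

theorem aa_succ {M n : ℕ} (h : n < M) : aa g M (n + 1) =
    aa g M n + (Y g (n + 1) - 2 * Y g n) * 2 ^ (M - n - 1) := by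
  unfold aa
  have h1 := Y_ge (g := g) n
  obtain ⟨t, ht⟩ : ∃ t, Y g (n + 1) = 2 * Y g n + t := ⟨Y g (n + 1) - 2 * Y g n, by omega⟩
  obtain ⟨s, hs⟩ : ∃ s, M - n = s + 1 := ⟨M - n - 1, by omega⟩
  rw [ht, show M - (n + 1) = s by omega, hs, show s + 1 - 1 = s by omega,
    show 2 * Y g n + t - 2 * Y g n = t by omega, pow_succ]
  ring

theorem aa_mono {M n m : ℕ} (h : n ≤ m) (hm : m ≤ M) : aa g M n ≤ aa g M m := by
  induction m with
  | zero => obtain rfl : n = 0 := by omega
            exact le_rfl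
  | succ m ih =>
    rcases Nat.lt_or_ge n (m + 1) with h1 | h1
    · rw [aa_succ (by omega)]
      exact (ih (by omega) (by omega)).trans (Nat.le_add_right _ _)
    · obtain rfl : n = m + 1 := by omega
      exact le_rfl

/-- the accumulated weighted values of `g` along `X` -/
def GG (g : ℕ → List Bool → ℕ) (M : ℕ) (X : List Bool) (k : ℕ) : ℕ :=
  4 * ∑ n ∈ Finset.range M, g M (X.take n) * (min k (aa g M (n + 1)) - min k (aa g M n))

theorem GG_mono (M : ℕ) (X : List Bool) : Monotone (GG g M X) := by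
  intro k k' h
  unfold GG
  refine Nat.mul_le_mul_left _ (Finset.sum_le_sum fun n hn => Nat.mul_le_mul_left _ ?_)
  rw [Finset.mem_range] at hn
  have h1 := aa_mono (g := g) (M := M) (n := n) (m := n + 1) (by omega) (by omega)
  omega

theorem GG_ge {M N m i : ℕ} (hN : N < m) (hm : m < M) (hi : aa g M m ≤ i) (X : List Bool) :
    GG g M X (aa g M N) + 4 * (∑ n ∈ Finset.range m, if N ≤ n then g M (X.take n) *
      ((Y g (n + 1) - 2 * Y g n) * 2 ^ (M - n - 1)) else 0) ≤ GG g M X (i + 1) := by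
  unfold GG
  rw [← Nat.mul_add]
  refine Nat.mul_le_mul_left _ ?_
  have h1 : (∑ n ∈ Finset.range m, if N ≤ n then g M (X.take n) *
      ((Y g (n + 1) - 2 * Y g n) * 2 ^ (M - n - 1)) else 0) ≤
      ∑ n ∈ Finset.range M, if N ≤ n ∧ n < m then g M (X.take n) *
      ((Y g (n + 1) - 2 * Y g n) * 2 ^ (M - n - 1)) else 0 := by
    refine le_trans ?_ (Finset.sum_le_sum_of_subset (Finset.range_subset_range.2 hm.le))
    refine Finset.sum_le_sum fun n hn => ?_
    rw [Finset.mem_range] at hn
    by_cases h : N ≤ n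
    · rw [if_pos h, if_pos ⟨h, hn⟩]
    · rw [if_neg h]; exact Nat.zero_le _
  refine (Nat.add_le_add_left h1 _).trans ?_
  rw [← Finset.sum_add_distrib]
  refine Finset.sum_le_sum fun n hn => ?_
  rw [Finset.mem_range] at hn
  have h2 := aa_mono (g := g) (M := M) (n := n) (m := n + 1) (by omega) (by omega)
  have h7 := aa_mono (g := g) (M := M) (n := N) (m := m) (by omega) (by omega)
  by_cases h : N ≤ n ∧ n < m
  · rw [if_pos h, ← Nat.mul_add]
    refine Nat.mul_le_mul_left _ ?_
    have h3 := aa_mono (g := g) (M := M) (n := N) (m := n) h.1 (by omega)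
    have h4 := aa_mono (g := g) (M := M) (n := n + 1) (m := m) h.2 (by omega)
    have h5 := aa_succ (g := g) (M := M) (n := n) hn
    omega
  · rw [if_neg h, add_zero]
    refine Nat.mul_le_mul_left _ ?_
    omega

/-- the cells on which the average of the values of `g` is too large -/
def SS (g : ℕ → List Bool → ℕ) (M q : ℕ) (X : List Bool) (i : ℕ) : Prop :=
  ∃ j ≤ i, 2 ^ (4 * q + 8) * (i + 1 - j) + GG g M X j < GG g M X (i + 1)

open Classical in
theorem key (hg : ∀ m m' x, m ≤ m' → g m x ≤ g m' x) {M m k i q : ℕ} (hm : m < M)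
    (hk : 2 * Y g m + 1 ≤ k) (hi : k * 2 ^ (M - m - 1) ≤ i)
    (hi2 : i < (k + 1) * 2 ^ (M - m - 1)) {X : List Bool}
    (h : tsts g (hist g m) q m (X.take m) k = true) : SS g M q X i := by
  unfold tsts at h
  rw [List.any_eq_true] at h
  obtain ⟨N, hN, h⟩ := h
  rw [List.mem_range] at hN
  unfold tst at h
  rw [decide_eq_true_eq, getD_hist hN.le, sm_eq] at h
  obtain ⟨D, hD⟩ : ∃ D, D = 2 ^ (M - m - 1) := ⟨_, rfl⟩
  obtain ⟨θ, hθ⟩ : ∃ θ, θ = 2 ^ (4 * q + 8) := ⟨_, rfl⟩
  rw [← hD] at hi hi2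
  rw [← hθ] at h
  have hD1 : 1 ≤ D := by rw [hD]; exact Nat.one_le_two_pow
  have ham : aa g M m = 2 * Y g m * D := by
    unfold aa
    rw [hD, show M - m = (M - m - 1) + 1 by omega, pow_succ, show M - m - 1 + 1 - 1 = M - m - 1 by omega]
    ring
  have haN : aa g M N = Y g N * 2 ^ (m + 1 - N) * D := by
    unfold aa
    rw [hD, mul_assoc, ← pow_add]
    congr 2
    omega
  have hmi : aa g M m ≤ i := by
    rw [ham]
    exact (Nat.mul_le_mul_right D (by omega)).trans hi
  have hNm := aa_mono (g := g) (M := M) (n := N) (m := m) hN.le hm.le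
  have hNk : Y g N * 2 ^ (m + 1 - N) + 1 ≤ k := by
    rw [ham, haN] at hNm
    have := Nat.le_of_mul_le_mul_right hNm hD1
    omega
  refine ⟨aa g M N, hNm.trans hmi, ?_⟩
  have h1 := GG_ge hN hm hmi X
  have h2 : D * (∑ n ∈ Finset.range m, if N ≤ n then
      (Y g (n + 1) - 2 * Y g n) * 2 ^ (m - n) * g m ((X.take m).take n) else 0) ≤
      ∑ n ∈ Finset.range m, if N ≤ n then g M (X.take n) *
      ((Y g (n + 1) - 2 * Y g n) * 2 ^ (M - n - 1)) else 0 := by
    rw [Finset.mul_sum]
    refine Finset.sum_le_sum fun n hn => ?_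
    rw [Finset.mem_range] at hn
    by_cases h3 : N ≤ n
    · rw [if_pos h3, if_pos h3, List.take_take, min_eq_left hn.le]
      have h4 : 2 ^ (M - n - 1) = D * 2 ^ (m - n) := by
        rw [hD, ← pow_add]
        congr 1
        omega
      rw [h4]
      calc D * ((Y g (n + 1) - 2 * Y g n) * 2 ^ (m - n) * g m (X.take n))
          ≤ D * ((Y g (n + 1) - 2 * Y g n) * 2 ^ (m - n) * g M (X.take n)) :=
            Nat.mul_le_mul_left _ (Nat.mul_le_mul_left _ (hg _ _ _ hm.le))
        _ = _ := by ring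
    · rw [if_neg h3, if_neg h3]
      simp
  obtain ⟨s, hs⟩ : ∃ s, s = ∑ n ∈ Finset.range m, if N ≤ n then
      (Y g (n + 1) - 2 * Y g n) * 2 ^ (m - n) * g m ((X.take m).take n) else 0 := ⟨_, rfl⟩
  rw [← hs] at h h2
  obtain ⟨δ, hδ⟩ : ∃ δ, k = Y g N * 2 ^ (m + 1 - N) + (δ + 1) :=
    ⟨k - (Y g N * 2 ^ (m + 1 - N) + 1), by omega⟩
  have h3 : θ * (δ + 1) < 2 * s := by
    rw [hδ, Nat.mul_add] at h
    omega
  have h4 : i + 1 - aa g M N ≤ (δ + 2) * D := by
    rw [haN]
    have h5 : i + 1 ≤ Y g N * 2 ^ (m + 1 - N) * D + (δ + 2) * D := by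
      rw [← Nat.add_mul]
      rw [hδ] at hi2
      calc i + 1 ≤ (Y g N * 2 ^ (m + 1 - N) + (δ + 1) + 1) * D := hi2
        _ = _ := by ring
    omega
  rw [← hθ]
  have h5 : θ * (i + 1 - aa g M N) < 4 * (D * s) := by
    calc θ * (i + 1 - aa g M N) ≤ θ * ((δ + 2) * D) := Nat.mul_le_mul_left _ h4
      _ ≤ 2 * D * (θ * (δ + 1)) := by nlinarith [Nat.zero_le (θ * D * δ)]
      _ < 2 * D * (2 * s) := Nat.mul_lt_mul_of_pos_left h3 (by omega)
      _ = _ := by ring
  omega

theorem tot_GG (h2 : ∀ m n, tot n (g m) ≤ 2 * 2 ^ n) (M : ℕ) :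
    tot M (fun X => GG g M X (Y g M)) ≤ 8 * Y g M * 2 ^ M := by
  have hM : Y g M = aa g M M := by unfold aa; simp
  have h1 : ∀ X, GG g M X (Y g M) = ∑ n ∈ Finset.range M,
      (4 * (aa g M (n + 1) - aa g M n)) * g M (X.take n) := by
    intro X
    unfold GG
    rw [Finset.mul_sum]
    refine Finset.sum_congr rfl fun n hn => ?_
    rw [Finset.mem_range] at hn
    have h2 := aa_mono (g := g) (M := M) (n := n) (m := n + 1) (by omega) (by omega)
    have h3 := aa_mono (g := g) (M := M) (n := n + 1) (m := M) (by omega) (by omega)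
    rw [hM, min_eq_right h3, min_eq_right (h2.trans h3)]
    ring
  rw [tot_congr (fun X _ => h1 X), tot_sum]
  calc ∑ n ∈ Finset.range M, tot M (fun X => 4 * (aa g M (n + 1) - aa g M n) * g M (X.take n))
      ≤ ∑ n ∈ Finset.range M, (8 * 2 ^ M) * (aa g M (n + 1) - aa g M n) := by
        refine Finset.sum_le_sum fun n hn => ?_
        rw [Finset.mem_range] at hn
        rw [tot_mul, tot_take hn.le]
        calc 4 * (aa g M (n + 1) - aa g M n) * (2 ^ (M - n) * tot n (g M))
            ≤ 4 * (aa g M (n + 1) - aa g M n) * (2 ^ (M - n) * (2 * 2 ^ n)) :=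
              Nat.mul_le_mul_left _ (Nat.mul_le_mul_left _ (h2 _ _))
          _ = 8 * (2 ^ (M - n) * 2 ^ n) * (aa g M (n + 1) - aa g M n) := by ring
          _ = _ := by rw [← pow_add, show M - n + n = M by omega]
    _ = 8 * 2 ^ M * aa g M M := by
        rw [← Finset.mul_sum]
        congr 1
        have h3 : ∀ m ≤ M, ∑ n ∈ Finset.range m, (aa g M (n + 1) - aa g M n) = aa g M m := by
          intro m
          induction m with
          | zero => intro _; simp [aa, Y_zero]
          | succ m ih =>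
            intro hm
            rw [Finset.sum_range_succ, ih (by omega)]
            have := aa_mono (g := g) (M := M) (n := m) (m := m + 1) (by omega) (by omega)
            omega
        exact h3 M le_rfl
    _ = _ := by rw [← hM]; ring

/-- the cells which are bad for `q` -/
def BB (g : ℕ → List Bool → ℕ) (M q i : ℕ) : Prop :=
  ∃ m < M, ∃ k, 2 * Y g m + 1 ≤ k ∧ k * 2 ^ (M - m - 1) ≤ i ∧ i < (k + 1) * 2 ^ (M - m - 1) ∧
    badq g (hist g m) m k q = true

open Classical in
theorem card_BB (hg : ∀ m m' x, m ≤ m' → g m x ≤ g m' x) (h2 : ∀ m n, tot n (g m) ≤ 2 * 2 ^ n)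
    (M q : ℕ) : 8 * 4 ^ q * ((Finset.range (Y g M)).filter (BB g M q)).card ≤ Y g M := by
  have h1 : ∀ i, BB g M q i → 2 ^ M ≤ 4 ^ (q + 1) * tot M fun X => if SS g M q X i then 1 else 0 := by
    rintro i ⟨m, hm, k, hk, hi, hi2, hb⟩
    unfold badq at hb
    rw [decide_eq_true_eq] at hb
    have h3 : 2 ^ M = 2 ^ (M - m) * 2 ^ m := by rw [← pow_add]; congr 1; omega
    rw [h3]
    refine (Nat.mul_le_mul_left _ hb.le).trans ?_
    calc 2 ^ (M - m) * (4 ^ (q + 1) * tot m fun x => bif tsts g (hist g m) q m x k then 1 else 0)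
        = 4 ^ (q + 1) * (2 ^ (M - m) * tot m fun x => bif tsts g (hist g m) q m x k then 1 else 0) := by
          ring
      _ ≤ _ := by
          refine Nat.mul_le_mul_left _ ?_
          rw [← tot_take hm.le (fun x => bif tsts g (hist g m) q m x k then 1 else 0)]
          refine tot_mono fun X _ => ?_
          by_cases h4 : tsts g (hist g m) q m (X.take m) k = true
          · rw [if_pos (key hg hm hk hi hi2 h4), h4]
            exact le_rfl
          · rw [Bool.not_eq_true] at h4
            rw [h4]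
            exact Nat.zero_le _
  have h3 : 2 ^ M * ((Finset.range (Y g M)).filter (BB g M q)).card ≤
      4 ^ (q + 1) * tot M fun X => ((Finset.range (Y g M)).filter (SS g M q X)).card := by
    calc 2 ^ M * ((Finset.range (Y g M)).filter (BB g M q)).card
        = ∑ i ∈ (Finset.range (Y g M)).filter (BB g M q), 2 ^ M := by
          rw [Finset.sum_const, smul_eq_mul, mul_comm]
      _ ≤ ∑ i ∈ (Finset.range (Y g M)).filter (BB g M q),
          4 ^ (q + 1) * tot M fun X => if SS g M q X i then 1 else 0 := by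
          refine Finset.sum_le_sum fun i hi => h1 i ?_
          rw [Finset.mem_filter] at hi
          exact hi.2
      _ ≤ ∑ i ∈ Finset.range (Y g M),
          4 ^ (q + 1) * tot M fun X => if SS g M q X i then 1 else 0 :=
          Finset.sum_le_sum_of_subset (Finset.filter_subset _ _)
      _ = _ := by
          rw [← Finset.mul_sum, ← tot_sum]
          congr 1
          refine tot_congr fun X _ => ?_
          rw [Finset.card_filter]
  have h4 : 2 ^ (4 * q + 8) * (tot M fun X => ((Finset.range (Y g M)).filter (SS g M q X)).card) ≤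
      8 * Y g M * 2 ^ M := by
    rw [← tot_mul]
    refine (tot_mono fun X _ => ?_).trans (tot_GG h2 M)
    have h4 := maximal (GG g M X) (GG_mono M X) (2 ^ (4 * q + 8)) (Y g M)
    unfold SS
    convert h4
  have h5 : 2 ^ (4 * q + 8) * (2 ^ M * ((Finset.range (Y g M)).filter (BB g M q)).card) ≤
      4 ^ (q + 1) * (8 * Y g M * 2 ^ M) := by
    calc _ ≤ 2 ^ (4 * q + 8) * (4 ^ (q + 1) * tot M fun X =>
          ((Finset.range (Y g M)).filter (SS g M q X)).card) := Nat.mul_le_mul_left _ h3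
      _ = 4 ^ (q + 1) * (2 ^ (4 * q + 8) * tot M fun X =>
          ((Finset.range (Y g M)).filter (SS g M q X)).card) := by ring
      _ ≤ _ := Nat.mul_le_mul_left _ h4
  have h6 : (2 : ℕ) ^ (4 * q + 8) = (32 * 4 ^ q) * (8 * 4 ^ q) := by
    rw [pow_add, show (2 : ℕ) ^ (4 * q) = 4 ^ q * 4 ^ q by
      rw [← pow_add, show (4 : ℕ) = 2 ^ 2 by norm_num, ← pow_mul]; congr 1; ring]
    ring
  have h7 : (4 : ℕ) ^ (q + 1) = 4 * 4 ^ q := by rw [pow_succ]; ring
  rw [h6, h7] at h5
  have h8 : (32 * 4 ^ q * 2 ^ M) * (8 * 4 ^ q * ((Finset.range (Y g M)).filter (BB g M q)).card) ≤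
      (32 * 4 ^ q * 2 ^ M) * Y g M := by
    calc _ = 32 * 4 ^ q * (8 * 4 ^ q) * (2 ^ M * ((Finset.range (Y g M)).filter (BB g M q)).card) := by
          ring
      _ ≤ _ := h5
      _ = _ := by ring
  exact Nat.le_of_mul_le_mul_left h8 (by positivity)

/-- the planned cells -/
def PP (g : ℕ → List Bool → ℕ) (M i : ℕ) : Prop :=
  ∃ m < M, 2 * Y g m * 2 ^ (M - m - 1) ≤ i ∧ i < (2 * Y g m + 1) * 2 ^ (M - m - 1)

open Classical in
theorem card_PP (M K : ℕ) : ((Finset.range K).filter (PP g M)).card ≤ 2 ^ M := by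
  have h1 : ((Finset.range K).filter (PP g M)) ⊆ (Finset.range M).biUnion fun m =>
      Finset.Ico (2 * Y g m * 2 ^ (M - m - 1)) ((2 * Y g m + 1) * 2 ^ (M - m - 1)) := by
    intro i hi
    rw [Finset.mem_filter] at hi
    obtain ⟨_, m, hm, h1, h2⟩ := hi
    rw [Finset.mem_biUnion]
    exact ⟨m, Finset.mem_range.2 hm, Finset.mem_Ico.2 ⟨h1, h2⟩⟩
  refine (Finset.card_le_card h1).trans (Finset.card_biUnion_le.trans ?_)
  have h2 : ∀ m ∈ Finset.range M, (Finset.Ico (2 * Y g m * 2 ^ (M - m - 1))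
      ((2 * Y g m + 1) * 2 ^ (M - m - 1))).card = 2 ^ (M - 1 - m) := by
    intro m _
    rw [Nat.card_Ico, Nat.add_mul, one_mul, Nat.add_sub_cancel_left]
    congr 1
    omega
  rw [Finset.sum_congr rfl h2, Finset.sum_range_reflect (fun m => 2 ^ m) M,
    Nat.geomSum_eq (by norm_num)]
  simp

open Classical in
theorem Y_le (hg : ∀ m m' x, m ≤ m' → g m x ≤ g m' x) (h2 : ∀ m n, tot n (g m) ≤ 2 * 2 ^ n)
    (M : ℕ) : Y g M ≤ 2 * 2 ^ M := by
  have hM : Y g M = aa g M M := by unfold aa; simp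
  have hcov : Finset.range (Y g M) ⊆ ((Finset.range (Y g M)).filter (PP g M)) ∪
      (Finset.range M).biUnion fun q => (Finset.range (Y g M)).filter (BB g M q) := by
    intro i hi
    have hi' := hi
    rw [Finset.mem_range] at hi
    have hex : ∃ n, i < aa g M n := ⟨M, by rw [← hM]; exact hi⟩
    have h3 := Nat.find_spec hex
    obtain ⟨n, hn⟩ : ∃ n, n = Nat.find hex := ⟨_, rfl⟩
    have hnM : n ≤ M := by rw [hn]; exact Nat.find_le (by rw [← hM]; exact hi)
    rw [← hn] at h3
    rcases n with _ | m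
    · simp [aa, Y_zero] at h3
    have h4 : aa g M m ≤ i := by
      have := Nat.find_min hex (m := m) (by omega)
      omega
    obtain ⟨D, hD⟩ : ∃ D, D = 2 ^ (M - m - 1) := ⟨_, rfl⟩
    have hD1 : 0 < D := by rw [hD]; exact Nat.two_pow_pos _
    have ham : aa g M m = 2 * Y g m * D := by
      unfold aa
      rw [hD, show M - m = (M - m - 1) + 1 by omega, pow_succ, show M - m - 1 + 1 - 1 = M - m - 1 by omega]
      ring
    have ham1 : aa g M (m + 1) = Y g (m + 1) * D := by
      unfold aa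
      rw [hD]
      congr 2
    rw [ham] at h4
    rw [ham1] at h3
    have h5 : i / D * D ≤ i := Nat.div_mul_le_self i D
    have h6 : i < (i / D + 1) * D := Nat.lt_mul_of_div_lt (Nat.lt_succ_self _) hD1
    have h7 : 2 * Y g m ≤ i / D := (Nat.le_div_iff_mul_le hD1).2 h4
    have h8 : i / D < Y g (m + 1) := (Nat.div_lt_iff_lt_mul hD1).2 h3
    rw [Finset.mem_union, Finset.mem_filter, Finset.mem_biUnion]
    rcases h7.eq_or_lt with h9 | h9
    · left
      refine ⟨hi', m, by omega, ?_, ?_⟩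
      · rw [← hD, h9]; exact h5
      · rw [← hD, h9]; exact h6
    · right
      have h10 := Y_bad (g := g) m (i / D) h9 h8
      unfold bad at h10
      rw [List.any_eq_true] at h10
      obtain ⟨q, hq, h10⟩ := h10
      rw [List.mem_range] at hq
      refine ⟨q, Finset.mem_range.2 (by omega), ?_⟩
      rw [Finset.mem_filter]
      exact ⟨hi', m, by omega, i / D, h9, by rw [← hD]; exact h5, by rw [← hD]; exact h6, h10⟩
  have h3 := (Finset.card_le_card hcov).trans (Finset.card_union_le _ _)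
  rw [Finset.card_range] at h3
  have h4 : ((Finset.range M).biUnion fun q => (Finset.range (Y g M)).filter (BB g M q)).card ≤
      ∑ q ∈ Finset.range M, ((Finset.range (Y g M)).filter (BB g M q)).card :=
    Finset.card_biUnion_le
  have h5 := card_PP (g := g) M (Y g M)
  have h6 : (∑ q ∈ Finset.range M, (((Finset.range (Y g M)).filter (BB g M q)).card : ℝ)) ≤
      (Y g M : ℝ) / 4 := by
    have h7 : ∀ q ∈ Finset.range M, (((Finset.range (Y g M)).filter (BB g M q)).card : ℝ) ≤
        (Y g M : ℝ) / 4 * (1 / 2) ^ (q + 1) := by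
      intro q _
      have h8 := card_BB hg h2 M q
      have h9 : (8 * 4 ^ q * ((Finset.range (Y g M)).filter (BB g M q)).card : ℝ) ≤ Y g M := by
        exact_mod_cast h8
      have h10 : (1 : ℝ) ≤ 2 ^ q := one_le_pow₀ (by norm_num)
      have h11 : (4 : ℝ) ^ q = 2 ^ q * 2 ^ q := by rw [← mul_pow]; norm_num
      have h12 : (1 / 2 : ℝ) ^ (q + 1) = 1 / (2 * 2 ^ q) := by
        rw [pow_succ, one_div_pow]; ring
      rw [h12, div_mul_div_comm, mul_one, le_div_iff₀ (by positivity)]
      have h13 : (0 : ℝ) ≤ (((Finset.range (Y g M)).filter (BB g M q)).card : ℝ) := Nat.cast_nonneg _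
      rw [h11] at h9
      have h14 : (((Finset.range (Y g M)).filter (BB g M q)).card : ℝ) * 2 ^ q ≤
          (((Finset.range (Y g M)).filter (BB g M q)).card : ℝ) * 2 ^ q * 2 ^ q := by
        exact le_mul_of_one_le_right (by positivity) h10
      nlinarith
    refine (Finset.sum_le_sum h7).trans ?_
    rw [← Finset.mul_sum]
    have h8 := Pool.Agent.X234.TD.geom_half (Finset.range M)
    have h9 : (0 : ℝ) ≤ (Y g M : ℝ) / 4 := by positivity
    calc (Y g M : ℝ) / 4 * ∑ q ∈ Finset.range M, (1 / 2 : ℝ) ^ (q + 1) ≤ (Y g M : ℝ) / 4 * 1 :=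
          mul_le_mul_of_nonneg_left h8 h9
      _ = _ := mul_one _
  have h7 : (Y g M : ℝ) ≤ 2 ^ M + (Y g M : ℝ) / 4 := by
    have h8 : Y g M ≤ 2 ^ M + ∑ q ∈ Finset.range M, ((Finset.range (Y g M)).filter (BB g M q)).card := by
      omega
    have h9 : (Y g M : ℝ) ≤ ((2 ^ M + ∑ q ∈ Finset.range M,
        ((Finset.range (Y g M)).filter (BB g M q)).card : ℕ) : ℝ) := by exact_mod_cast h8
    push_cast at h9
    linarith
  have h8 : (Y g M : ℝ) ≤ 2 * 2 ^ M := by
    have : (0 : ℝ) ≤ 2 ^ M := by positivity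
    linarith
  exact_mod_cast h8

end Pool.Agent.X234.KR
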