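import Pool.Agent.X234.KR.Sum

/-!
The slow clock: a computable increasing sequence of dyadic rationals.
-/

set_option autoImplicit false

namespace Pool.Agent.X234.KR

open Pool.Agent.Helper227 Finset Encodable
open Pool.Agent.Helper446.RE

/-- the weighted sum of the values of `g` along `x` -/
def sm (g : ℕ → List Bool → ℕ) (H : List ℕ) (m N : ℕ) (x : List Bool) : ℕ :=
  ∑ n ∈ Finset.range m, if N ≤ n then
    (H.getD (n + 1) 0 - 2 * H.getD n 0) * 2 ^ (m - n) * g m (x.take n) else 0

/-- the test -/
def tst (g : ℕ → List Bool → ℕ) (H : List ℕ) (q m N : ℕ) (x : List Bool) (k : ℕ) : Bool :=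
  decide (2 ^ (4 * q + 8) * k < 2 * sm g H m N x + 2 ^ (4 * q + 8) * (H.getD N 0 * 2 ^ (m + 1 - N)))

/-- some `N < m` satisfies the test -/
def tsts (g : ℕ → List Bool → ℕ) (H : List ℕ) (q m : ℕ) (x : List Bool) (k : ℕ) : Bool :=
  (List.range m).any fun N => tst g H q m N x k

/-- the value `k` is bad for `q` -/
def badq (g : ℕ → List Bool → ℕ) (H : List ℕ) (m k q : ℕ) : Bool :=
  decide (2 ^ m < 4 ^ (q + 1) * tot m fun x => bif tsts g H q m x k then 1 else 0)

/-- the value `k` is bad -/
def bad (g : ℕ → List Bool → ℕ) (H : List ℕ) (m k : ℕ) : Bool :=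
  (List.range m).any fun q => badq g H m k q

section comp
variable {α : Type*} [Primcodable α] {g : ℕ → List Bool → ℕ}

theorem comp_ite01 {c : α → ℕ} {d e : α → ℕ} (hc : Computable c) (hd : Computable d) (he : Computable e) :
    Computable fun a => if c a ≤ d a then e a else 0 := by
  have h1 := ccond (comp_dle hc hd) he (cconst (α := α) 0)
  refine h1.of_eq fun a => ?_
  by_cases h : c a ≤ d a
  · simp [h]
  · simp [h]

theorem sm_comp (hg : Computable₂ g) {H : α → List ℕ} {m N : α → ℕ} {x : α → List Bool}
    (hH : Computable H) (hm : Computable m) (hN : Computable N) (hx : Computable x) :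
    Computable fun a => sm g (H a) (m a) (N a) (x a) := by
  unfold sm
  refine comp_csum hm ?_
  have hN' : Computable fun p : α × ℕ => N p.1 := hN.comp Computable.fst
  have hm' : Computable fun p : α × ℕ => m p.1 := hm.comp Computable.fst
  have hH' : Computable fun p : α × ℕ => H p.1 := hH.comp Computable.fst
  have hx' : Computable fun p : α × ℕ => x p.1 := hx.comp Computable.fst
  have hn : Computable fun p : α × ℕ => p.2 := Computable.snd
  have h1 : Computable fun p : α × ℕ => (H p.1).getD (p.2 + 1) 0 :=
    comp_getD0 hH' (cadd hn (cconst 1))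
  have h2 : Computable fun p : α × ℕ => (H p.1).getD p.2 0 := comp_getD0 hH' hn
  have h3 : Computable fun p : α × ℕ => 2 ^ (m p.1 - p.2) := comp_pow2 (csub hm' hn)
  have h4 : Computable fun p : α × ℕ => g (m p.1) ((x p.1).take p.2) :=
    hg.comp hm' (comp_take hx' hn)
  exact comp_ite01 hN' hn (cmul (cmul (csub h1 (cmul (cconst 2) h2)) h3) h4)

theorem tst_comp (hg : Computable₂ g) {H : α → List ℕ} {q m N k : α → ℕ} {x : α → List Bool}
    (hH : Computable H) (hq : Computable q) (hm : Computable m) (hN : Computable N)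
    (hx : Computable x) (hk : Computable k) :
    Computable fun a => tst g (H a) (q a) (m a) (N a) (x a) (k a) := by
  unfold tst
  have h1 : Computable fun a => 2 ^ (4 * q a + 8) :=
    comp_pow2 (cadd (cmul (cconst 4) hq) (cconst 8))
  have h2 := sm_comp hg hH hm hN hx
  have h3 : Computable fun a => 2 ^ (m a + 1 - N a) := comp_pow2 (csub (cadd hm (cconst 1)) hN)
  exact comp_dlt (cmul h1 hk) (cadd (cmul (cconst 2) h2) (cmul h1 (cmul (comp_getD0 hH hN) h3)))

theorem tsts_comp (hg : Computable₂ g) {H : α → List ℕ} {q m k : α → ℕ} {x : α → List Bool}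
    (hH : Computable H) (hq : Computable q) (hm : Computable m)
    (hx : Computable x) (hk : Computable k) :
    Computable fun a => tsts g (H a) (q a) (m a) (x a) (k a) := by
  unfold tsts
  refine Pool.Agent.Helper344.CL.list_any (comp_lrange hm) ?_
  exact tst_comp (α := α × ℕ) hg (hH.comp Computable.fst) (hq.comp Computable.fst)
    (hm.comp Computable.fst) Computable.snd (hx.comp Computable.fst) (hk.comp Computable.fst)

theorem badq_comp (hg : Computable₂ g) {H : α → List ℕ} {q m k : α → ℕ}
    (hH : Computable H) (hm : Computable m) (hk : Computable k) (hq : Computable q) :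
    Computable fun a => badq g (H a) (m a) (k a) (q a) := by
  unfold badq
  have h1 : Computable fun a => tot (m a) fun x => bif tsts g (H a) (q a) (m a) x (k a) then 1 else 0 := by
    refine comp_tot hm ?_
    have h2 := tsts_comp (α := α × List Bool) hg (hH.comp Computable.fst) (hq.comp Computable.fst)
      (hm.comp Computable.fst) Computable.snd (hk.comp Computable.fst)
    exact ccond h2 (cconst 1) (cconst 0)
  exact comp_dlt (comp_pow2 hm) (cmul (comp_pow4 (cadd hq (cconst 1))) h1)

theorem bad_comp (hg : Computable₂ g) {H : α → List ℕ} {m k : α → ℕ}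
    (hH : Computable H) (hm : Computable m) (hk : Computable k) :
    Computable fun a => bad g (H a) (m a) (k a) := by
  unfold bad
  refine Pool.Agent.Helper344.CL.list_any (comp_lrange hm) ?_
  exact badq_comp (α := α × ℕ) hg (hH.comp Computable.fst)
    (hm.comp Computable.fst) (hk.comp Computable.fst) Computable.snd

end comp

/-- large values are not bad -/
theorem exists_nxt (g : ℕ → List Bool → ℕ) (p : ℕ × List ℕ) :
    ∃ k, (decide (2 * p.2.getD p.1 0 + 1 ≤ k) && !(bad g p.2 p.1 k)) = true := by
  obtain ⟨m, H⟩ := p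
  have h1 : ∀ x ∈ allStr m, ∀ N ∈ List.range m, ∃ b, ∀ q k, b ≤ k → tst g H q m N x k = false := by
    intro x _ N _
    refine ⟨2 * sm g H m N x + H.getD N 0 * 2 ^ (m + 1 - N), fun q k hk => ?_⟩
    unfold tst
    rw [decide_eq_false_iff_not, not_lt]
    have h2 : 1 ≤ 2 ^ (4 * q + 8) := Nat.one_le_two_pow
    nlinarith [Nat.zero_le (sm g H m N x)]
  choose! b hb using h1
  refine ⟨2 * H.getD m 0 + 1 + ((allStr m).map fun x => ((List.range m).map fun N => b x N).sum).sum, ?_⟩
  rw [Bool.and_eq_true, decide_eq_true_eq]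
  refine ⟨by dsimp only; omega, ?_⟩
  rw [Bool.not_eq_true', ← Bool.not_eq_true]
  intro h2
  unfold bad at h2
  rw [List.any_eq_true] at h2
  obtain ⟨q, _, h2⟩ := h2
  unfold badq at h2
  rw [decide_eq_true_eq] at h2
  rw [tot_congr (G := fun _ => 0)] at h2
  · rw [tot_const] at h2
    simp at h2
  · intro x hx
    have h3 : tsts g H q m x (2 * H.getD m 0 + 1 +
        ((allStr m).map fun x => ((List.range m).map fun N => b x N).sum).sum) = false := by
      unfold tsts
      rw [List.any_eq_false]
      intro N hN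
      rw [Bool.not_eq_true]
      refine hb x (mem_allStr.2 hx) N hN q _ ?_
      have h4 : b x N ≤ ((List.range m).map fun N => b x N).sum :=
        List.single_le_sum (by simp) _ (List.mem_map_of_mem hN)
      have h5 : ((List.range m).map fun N => b x N).sum ≤
          ((allStr m).map fun x => ((List.range m).map fun N => b x N).sum).sum :=
        List.single_le_sum (by simp) _ (List.mem_map_of_mem (f := fun x =>
          ((List.range m).map fun N => b x N).sum) (mem_allStr.2 hx))
      omega
    rw [h3]
    rfl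

/-- the next value -/
def nxt (g : ℕ → List Bool → ℕ) (p : ℕ × List ℕ) : ℕ := Nat.find (exists_nxt g p)

/-- the history -/
def hist (g : ℕ → List Bool → ℕ) : ℕ → List ℕ
  | 0 => [0]
  | m + 1 => hist g m ++ [nxt g (m, hist g m)]

/-- the clock -/
def Y (g : ℕ → List Bool → ℕ) (m : ℕ) : ℕ := (hist g m).getD m 0

variable {g : ℕ → List Bool → ℕ}

theorem nxt_comp (hg : Computable₂ g) : Computable (nxt g) := by
  refine Pool.Agent.Helper344.CL.find_comp ?_ _
  have h1 : Computable fun p : (ℕ × List ℕ) × ℕ => p.1.2.getD p.1.1 0 :=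
    comp_getD0 (by fun_prop) (by fun_prop)
  have h2 : Computable fun p : (ℕ × List ℕ) × ℕ => bad g p.1.2 p.1.1 p.2 :=
    bad_comp hg (by fun_prop) (by fun_prop) (by fun_prop)
  exact cand (comp_dle (cadd (cmul (cconst 2) h1) (cconst 1)) Computable.snd) (cnot h2)

theorem hist_comp (hg : Computable₂ g) : Computable (hist g) := by
  have h1 : Computable fun m : ℕ => (Nat.rec [0] (fun m IH => IH ++ [nxt g (m, IH)]) m : List ℕ) := by
    refine Computable.nat_rec (f := fun m : ℕ => m) (g := fun _ => ([0] : List ℕ))
      (h := fun _ p => p.2 ++ [nxt g (p.1, p.2)]) Computable.id (Computable.const _) ?_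
    have h2 : Computable fun p : ℕ × (ℕ × List ℕ) => nxt g (p.2.1, p.2.2) :=
      (nxt_comp hg).comp (by fun_prop)
    exact Computable.list_concat.comp (f := fun (l : List ℕ) (b : ℕ) => l ++ [b])
      (g := fun p : ℕ × (ℕ × List ℕ) => p.2.2) (by fun_prop) h2
  refine h1.of_eq fun m => ?_
  induction m with
  | zero => rfl
  | succ m ih => simp only [ih, hist]

@[simp] theorem length_hist (m : ℕ) : (hist g m).length = m + 1 := by
  induction m with
  | zero => rfl
  | succ m ih => simp [hist, ih]

theorem getD_hist {m n : ℕ} (h : n ≤ m) : (hist g m).getD n 0 = Y g n := by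
  induction m with
  | zero =>
    obtain rfl : n = 0 := by omega
    rfl
  | succ m ih =>
    rcases Nat.lt_or_ge n (m + 1) with h1 | h1
    · rw [hist, List.getD_append _ _ _ _ (by simpa using h1)]
      exact ih (by omega)
    · obtain rfl : n = m + 1 := by omega
      rfl

theorem Y_succ (m : ℕ) : Y g (m + 1) = nxt g (m, hist g m) := by
  unfold Y
  rw [hist, List.getD_append_right _ _ _ _ (by simp)]
  simp

theorem Y_zero : Y g 0 = 0 := rfl

theorem Y_ge (m : ℕ) : 2 * Y g m + 1 ≤ Y g (m + 1) := by
  have h := Nat.find_spec (exists_nxt g (m, hist g m))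
  rw [Bool.and_eq_true, decide_eq_true_eq] at h
  rw [Y_succ]
  exact h.1

theorem Y_not_bad (m : ℕ) : bad g (hist g m) m (Y g (m + 1)) = false := by
  have h := Nat.find_spec (exists_nxt g (m, hist g m))
  rw [Bool.and_eq_true, Bool.not_eq_true'] at h
  rw [Y_succ]
  exact h.2

theorem Y_bad (m k : ℕ) (h1 : 2 * Y g m + 1 ≤ k) (h2 : k < Y g (m + 1)) :
    bad g (hist g m) m k = true := by
  rw [Y_succ] at h2
  have h := Nat.find_min (exists_nxt g (m, hist g m)) h2
  rw [Bool.and_eq_true, decide_eq_true_eq, Bool.not_eq_true', not_and] at h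
  have h3 := h h1
  simpa using h3

end Pool.Agent.X234.KR
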