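import Pool.Agent.X234.KR.Bound
import Pool.Agent.X234.MC.Plain

/-!
Strings with many initial segments of low complexity (on the scale of the clock) have low complexity.
-/

set_option autoImplicit false

namespace Pool.Agent.X234.KR

open Pool.Agent.Helper227 Finset Encodable Pool.Agent.Helper760.Kolm
open Pool.Agent.Helper446.RE Pool.Agent.X234.MC

section stage

/-- at stage `m` the string `σ` is seen to have deficiency more than `2 * j` -/
def qq (e m : ℕ) (σ : List Bool) (j : ℕ) : Bool :=
  decide (2 * j < σ.length) && wst (List Bool × ℕ) e m (σ, σ.length - 2 * j)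

/-- the exponential of the deficiency, at stage `m` -/
def gg (e m : ℕ) (σ : List Bool) : ℕ :=
  ∑ j ∈ Finset.range σ.length, bif qq e m σ j then 2 ^ j else 0

/-- half of the deficiency, at stage `m` -/
def jj (e m : ℕ) (σ : List Bool) : ℕ :=
  ((Finset.range σ.length).filter fun j => qq e m σ j = true).card

theorem gg_comp (e : ℕ) : Computable₂ (gg e) := by
  show Computable fun p : ℕ × List Bool => gg e p.1 p.2
  unfold gg
  refine comp_csum (by fun_prop) ?_
  show Computable fun p : (ℕ × List Bool) × ℕ => bif qq e p.1.1 p.1.2 p.2 then 2 ^ p.2 else 0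
  have h1 : Computable fun p : (ℕ × List Bool) × ℕ => qq e p.1.1 p.1.2 p.2 := by
    unfold qq
    refine cand (comp_dlt (by fun_prop) (by fun_prop)) ?_
    exact wst_comp.comp (f := fun p : (ℕ × ℕ) × (List Bool × ℕ) => wst (List Bool × ℕ) p.1.1 p.1.2 p.2)
      (g := fun p : (ℕ × List Bool) × ℕ => ((e, p.1.1), (p.1.2, p.1.2.length - 2 * p.2)))
      (by fun_prop)
  exact ccond h1 (comp_pow2 (by fun_prop)) (cconst 0)

theorem qq_mono {e m m' : ℕ} (h : m ≤ m') {σ : List Bool} {j : ℕ} (hq : qq e m σ j = true) :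
    qq e m' σ j = true := by
  unfold qq at *
  rw [Bool.and_eq_true] at *
  exact ⟨hq.1, wst_mono h hq.2⟩

theorem gg_mono (e m m' : ℕ) (σ : List Bool) (h : m ≤ m') : gg e m σ ≤ gg e m' σ := by
  unfold gg
  refine Finset.sum_le_sum fun j _ => ?_
  cases hq : qq e m σ j with
  | false => exact Nat.zero_le _
  | true => rw [qq_mono h hq]

theorem gg_eq (e m : ℕ) (σ : List Bool) :
    gg e m σ = ∑ j ∈ (Finset.range σ.length).filter (fun j => qq e m σ j = true), 2 ^ j := by
  unfold gg
  rw [Finset.sum_filter]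
  refine Finset.sum_congr rfl fun j _ => ?_
  cases qq e m σ j <;> simp

theorem gg_lt (e m : ℕ) (σ : List Bool) : gg e m σ < 2 ^ σ.length := by
  rw [gg_eq]
  refine lt_of_le_of_lt (Finset.sum_le_sum_of_subset (Finset.filter_subset _ _)) ?_
  have := Nat.geomSum_eq (m := 2) (by norm_num) σ.length
  rw [this]
  have h1 : 0 < 2 ^ σ.length := Nat.two_pow_pos _
  simp only [Nat.add_one_sub_one, Nat.div_one]
  omega

theorem pow_card_le (S : Finset ℕ) : 2 ^ S.card ≤ ∑ j ∈ S, 2 ^ j + 1 := by
  classical
  induction S using Finset.induction_on_max with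
  | empty => simp
  | insert a s ha ih =>
    have h1 : a ∉ s := fun h => lt_irrefl _ (ha a h)
    rw [Finset.card_insert_of_notMem h1, Finset.sum_insert h1, pow_succ]
    have h2 : s.card ≤ a := by
      have h3 : s ⊆ Finset.range a := fun b hb => Finset.mem_range.2 (ha b hb)
      simpa using Finset.card_le_card h3
    have h4 : 2 ^ s.card ≤ 2 ^ a := Nat.pow_le_pow_right (by norm_num) h2
    omega

theorem jj_le (e m : ℕ) (σ : List Bool) (B : ℕ) :
    2 ^ B * jj e m σ ≤ gg e m σ + 2 ^ B * B := by
  have h1 : 2 ^ (jj e m σ) ≤ gg e m σ + 1 := by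
    rw [gg_eq]
    exact pow_card_le _
  rcases Nat.lt_or_ge B (jj e m σ) with h | h
  · obtain ⟨t, ht⟩ : ∃ t, jj e m σ = B + t := ⟨jj e m σ - B, by omega⟩
    rw [ht, pow_add] at h1
    rw [ht]
    have h2 : t + 1 ≤ 2 ^ t := Nat.lt_two_pow_self
    have h3 : 1 ≤ 2 ^ B := Nat.one_le_two_pow
    have h4 : 2 ^ B * (t + 1) ≤ 2 ^ B * 2 ^ t := Nat.mul_le_mul_left _ h2
    rw [Nat.mul_add] at h4 ⊢
    omega
  · exact (Nat.mul_le_mul_left _ h).trans (Nat.le_add_left _ _)

end stage

variable {V : List Bool →. List Bool}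

theorem exists_min (hV : PlainUniversal V) (y : List Bool) :
    ∃ τ : List Bool, τ.length = KU V y ∧ y ∈ V τ := by
  have hne : ({n | ∃ p : List Bool, p.length = n ∧ y ∈ V p}).Nonempty := by
    obtain ⟨c, hc⟩ := hV.2 (fun x => Part.some x) (Computable.id.partrec)
    obtain ⟨τ', _, h2⟩ := hc y y (Part.mem_some _)
    exact ⟨_, τ', rfl, h2⟩
  exact Nat.sInf_mem hne

theorem KU_len (hV : PlainUniversal V) : ∃ c : ℕ, ∀ y : List Bool, KU V y ≤ y.length + c := by
  obtain ⟨c, hc⟩ := hV.2 (fun x => Part.some x) (Computable.id.partrec)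
  refine ⟨c, fun y => ?_⟩
  obtain ⟨τ', h1, h2⟩ := hc y y (Part.mem_some _)
  exact (KU_le h2).trans h1

theorem lt_iff (hV : PlainUniversal V) (y : List Bool) (k : ℕ) :
    KU V y < k ↔ ∃ p : List Bool, p.length < k ∧ y ∈ V p := by
  constructor
  · intro h
    obtain ⟨p, hp, hp2⟩ := exists_min hV y
    exact ⟨p, by omega, hp2⟩
  · rintro ⟨p, hp, hp2⟩
    exact lt_of_le_of_lt (KU_le hp2) hp

theorem re_KU (hV : PlainUniversal V) :
    REPred fun x : List Bool × ℕ => KU V x.1 < x.2 := by
  have h1 : REPred fun x : List Bool × ℕ => ∃ p : List Bool, p.length < x.2 ∧ x.1 ∈ V p := by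
    refine Pool.Agent.Helper446.RE.ex (p := fun (x : List Bool × ℕ) (p : List Bool) =>
      p.length < x.2 ∧ x.1 ∈ V p) ?_
    refine Pool.Agent.Helper446.RE.and (Pool.Agent.Helper446.RE.lt (by fun_prop) (by fun_prop)) ?_
    exact Pool.Agent.Helper446.RE.comp (Pool.Agent.W968.SSC.s1_graph hV.1).re
      (f := fun x : (List Bool × ℕ) × List Bool => (x.2, x.1.1)) (by fun_prop)
  exact h1.of_eq fun x => (lt_iff hV x.1 x.2).symm

theorem card_lt (hV : PlainUniversal V) (n : ℕ)
    (T : Finset (List Bool)) (hT : ∀ w ∈ T, KU V w < n) : T.card ≤ 2 ^ n := by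
  classical
  have hex : ∀ y, ∃ τ : List Bool, τ.length = KU V y ∧ y ∈ V τ := fun y => exists_min hV y
  choose p hp hp2 using hex
  have h1 : ∀ m : ℕ, ∃ L : Finset (List Bool), (∀ τ : List Bool, τ.length < m → τ ∈ L) ∧
      L.card + 1 ≤ 2 ^ m := by
    intro m
    induction m with
    | zero => exact ⟨∅, by simp, by simp⟩
    | succ m ih =>
      obtain ⟨L, hL, hc⟩ := ih
      refine ⟨L ∪ (allStr m).toFinset, ?_, ?_⟩
      · intro τ hτ
        rw [Finset.mem_union]
        rcases Nat.lt_succ_iff_lt_or_eq.1 hτ with h | h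
        · exact Or.inl (hL τ h)
        · exact Or.inr (List.mem_toFinset.2 (mem_allStr.2 h))
      · have h2 := Finset.card_union_le L (allStr m).toFinset
        have h3 : ((allStr m).toFinset).card ≤ 2 ^ m := by
          refine (List.toFinset_card_le _).trans ?_
          rw [length_allStr]
        rw [pow_succ]
        omega
  obtain ⟨L, hL, hc⟩ := h1 n
  have h2 : T.card ≤ L.card := by
    refine Finset.card_le_card_of_injOn p (fun w hw => hL _ ?_) ?_
    · rw [hp]; exact hT w hw
    · intro x _ y _ hxy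
      have h3 := hp2 x
      rw [hxy] at h3
      exact Part.mem_unique h3 (hp2 y)
  omega

section e
variable {e : ℕ} (hV : PlainUniversal V)
  (he : ∀ x : List Bool × ℕ, KU V x.1 < x.2 ↔ ∃ s, wst (List Bool × ℕ) e s x = true)
include hV he

theorem tot_gg (m n : ℕ) : tot n (gg e m) ≤ 2 * 2 ^ n := by
  classical
  have h1 : tot n (gg e m) = ∑ j ∈ Finset.range n, tot n fun σ => bif qq e m σ j then 2 ^ j else 0 := by
    rw [← tot_sum]
    refine tot_congr fun σ hσ => ?_
    unfold gg
    rw [hσ]
  rw [h1]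
  have h2 : ∀ j ∈ Finset.range n, (tot n fun σ => bif qq e m σ j then 2 ^ j else 0) ≤ 2 ^ (n - j) := by
    intro j _
    by_cases hj : 2 * j < n
    · have h3 : (tot n fun σ => bif qq e m σ j then 2 ^ j else 0) =
          2 ^ j * tot n fun σ => if qq e m σ j = true then 1 else 0 := by
        rw [← tot_mul]
        refine tot_congr fun σ _ => ?_
        cases qq e m σ j <;> simp
      rw [h3, tot_ind]
      have h4 : ((allStr n).filter (fun σ => qq e m σ j = true)).length ≤ 2 ^ (n - 2 * j) := by
        rw [← List.toFinset_card_of_nodup ((nodup_allStr n).filter _)]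
        refine card_lt hV _ _ fun w hw => ?_
        rw [List.mem_toFinset, List.mem_filter] at hw
        have h5 := mem_allStr.1 hw.1
        have h6 := hw.2
        simp only [decide_eq_true_eq] at h6
        unfold qq at h6
        rw [Bool.and_eq_true, h5] at h6
        exact (he (w, n - 2 * j)).2 ⟨m, h6.2⟩
      calc 2 ^ j * _ ≤ 2 ^ j * 2 ^ (n - 2 * j) := Nat.mul_le_mul_left _ h4
        _ = 2 ^ (n - j) := by rw [← pow_add]; congr 1; omega
    · have h3 : (tot n fun σ => bif qq e m σ j then 2 ^ j else 0) = 0 := by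
        have h5 := tot_const n 0
        rw [Nat.mul_zero] at h5
        refine Eq.trans (tot_congr (G := fun _ => 0) fun σ hσ => ?_) h5
        have h4 : qq e m σ j = false := by
          unfold qq
          rw [Bool.and_eq_false_iff]
          left
          rw [decide_eq_false_iff_not, hσ]
          exact hj
        rw [h4]
        rfl
      rw [h3]
      exact Nat.zero_le _
  refine (Finset.sum_le_sum h2).trans ?_
  have h3 : ∀ n : ℕ, ∑ j ∈ Finset.range n, 2 ^ (n - j) + 2 = 2 * 2 ^ n := by
    intro n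
    induction n with
    | zero => simp
    | succ n ih =>
      rw [Finset.sum_range_succ']
      simp only [Nat.add_sub_add_right, Nat.sub_zero]
      rw [pow_succ]
      omega
  have := h3 n
  omega

omit hV in
theorem jj_ge (σ : List Bool) : ∃ m0, ∀ m, m0 ≤ m → σ.length ≤ KU V σ + 2 * jj e m σ := by
  classical
  have h1 : ∀ j ∈ Finset.range σ.length, ∃ m0, KU V σ < σ.length - 2 * j → ∀ m, m0 ≤ m →
      qq e m σ j = true := by
    intro j _
    by_cases h : KU V σ < σ.length - 2 * j
    · obtain ⟨s, hs⟩ := (he (σ, σ.length - 2 * j)).1 h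
      refine ⟨s, fun _ m hm => ?_⟩
      unfold qq
      rw [Bool.and_eq_true, decide_eq_true_eq]
      exact ⟨by omega, wst_mono hm hs⟩
    · exact ⟨0, fun h' => absurd h' h⟩
  choose! b hb using h1
  refine ⟨∑ j ∈ Finset.range σ.length, b j, fun m hm => ?_⟩
  have h2 : Finset.range ((σ.length - KU V σ + 1) / 2) ⊆
      (Finset.range σ.length).filter fun j => qq e m σ j = true := by
    intro j hj
    rw [Finset.mem_range] at hj
    rw [Finset.mem_filter, Finset.mem_range]
    refine ⟨by omega, hb j (Finset.mem_range.2 (by omega)) (by omega) m ?_⟩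
    exact (Finset.single_le_sum (f := b) (fun _ _ => Nat.zero_le _)
      (Finset.mem_range.2 (by omega))).trans hm
  have h3 := Finset.card_le_card h2
  rw [Finset.card_range] at h3
  change _ ≤ jj e m σ at h3
  omega

end e

/-! ### the machine -/

theorem comp_filter {α β : Type*} [Primcodable α] [Primcodable β] {f : α → List β}
    {p : α → β → Bool} (hf : Computable f) (hp : Computable₂ p) :
    Computable fun a => (f a).filter (p a) := by
  have hh : Computable₂ (fun (a : α) (q : List β × β) => bif p a q.2 then q.1 ++ [q.2] else q.1) := by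
    have h1 : Computable fun x : α × (List β × β) => p x.1 x.2.2 :=
      hp.comp Computable.fst (Computable.snd.comp Computable.snd)
    have h2 : Computable fun x : α × (List β × β) => x.2.1 ++ [x.2.2] :=
      Computable.list_concat.comp (Computable.fst.comp Computable.snd)
        (Computable.snd.comp Computable.snd)
    exact ccond h1 h2 (Computable.fst.comp Computable.snd)
  refine (Pool.Agent.Helper344.CL.list_foldl hf (Computable.const []) hh).of_eq fun a => ?_
  have : ∀ (l : List β) (s : List β), l.foldl (fun s b => bif p a b then s ++ [b] else s) s =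
      s ++ l.filter (p a) := by
    intro l
    induction l with
    | nil => intro s; simp
    | cons b l ih =>
      intro s
      rw [List.foldl_cons, ih, List.filter_cons]
      cases p a b <;> simp
  have h3 := this (f a) []
  rw [List.nil_append] at h3
  exact h3

/-- the strings which satisfy the test -/
def lst (g : ℕ → List Bool → ℕ) (q m : ℕ) : List (List Bool) :=
  (allStr m).filter fun x => tsts g (hist g m) q m x (Y g (m + 1))

theorem lst_comp {g : ℕ → List Bool → ℕ} (hg : Computable₂ g) : Computable₂ (lst g) := by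
  show Computable fun p : ℕ × ℕ => lst g p.1 p.2
  unfold lst
  refine comp_filter (primrec_allStr.to_comp.comp Computable.snd) ?_
  have hY : Computable (Y g) := by
    unfold Y
    exact comp_getD0 (hist_comp hg) Computable.id
  have hm : Computable fun a : (ℕ × ℕ) × List Bool => a.1.2 := by fun_prop
  have h1 : Computable fun a : (ℕ × ℕ) × List Bool => hist g a.1.2 := (hist_comp hg).comp hm
  have h2 : Computable fun a : (ℕ × ℕ) × List Bool => Y g (a.1.2 + 1) :=
    hY.comp (cadd hm (cconst 1))
  exact tsts_comp (α := (ℕ × ℕ) × List Bool) hg h1 (by fun_prop) hm (by fun_prop) h2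

variable {g : ℕ → List Bool → ℕ}

theorem tsts_big (hg1 : ∀ m x, g m x < 2 ^ x.length) {q m : ℕ} (hq : m ≤ q) {x : List Bool} :
    tsts g (hist g m) q m x (Y g (m + 1)) = false := by
  unfold tsts
  rw [List.any_eq_false]
  intro N hN
  rw [List.mem_range] at hN
  unfold tst
  rw [decide_eq_true_eq, getD_hist hN.le, sm_eq, not_lt]
  have h1 : ∀ M, M ≤ m → N ≤ M → (∑ n ∈ Finset.range M, if N ≤ n then
      (Y g (n + 1) - 2 * Y g n) * 2 ^ (m - n) * g m (x.take n) else 0) +
        2 ^ m * (Y g N * 2 ^ (m + 1 - N)) ≤ 2 ^ m * (Y g M * 2 ^ (m + 1 - M)) := by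
    intro M
    induction M with
    | zero =>
      intro _ h
      obtain rfl : N = 0 := by omega
      simp
    | succ M ih =>
      intro h1 h2
      rcases Nat.lt_or_ge M N with h3 | h3
      · obtain rfl : N = M + 1 := by omega
        have h4 : (∑ n ∈ Finset.range (M + 1), if M + 1 ≤ n then
            (Y g (n + 1) - 2 * Y g n) * 2 ^ (m - n) * g m (x.take n) else 0) = 0 := by
          refine Finset.sum_eq_zero fun n hn => ?_
          rw [Finset.mem_range] at hn
          rw [if_neg (by omega)]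
        rw [h4, zero_add]
      · rw [Finset.sum_range_succ, if_pos h3]
        have h4 := ih (by omega) h3
        have h5 : g m (x.take M) ≤ 2 ^ m := by
          refine (hg1 _ _).le.trans (Nat.pow_le_pow_right (by norm_num) ?_)
          rw [List.length_take]
          omega
        have h6 := Y_ge (g := g) M
        obtain ⟨t, ht⟩ : ∃ t, Y g (M + 1) = 2 * Y g M + t := ⟨Y g (M + 1) - 2 * Y g M, by omega⟩
        rw [ht, show 2 * Y g M + t - 2 * Y g M = t by omega, show m + 1 - (M + 1) = m - M by omega]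
        have h7 : 2 ^ (m + 1 - M) = 2 * 2 ^ (m - M) := by
          rw [show m + 1 - M = (m - M) + 1 by omega, pow_succ]; ring
        rw [h7] at h4
        have h8 : t * 2 ^ (m - M) * g m (x.take M) ≤ t * 2 ^ (m - M) * 2 ^ m :=
          Nat.mul_le_mul_left _ h5
        calc _ ≤ 2 ^ m * (Y g M * (2 * 2 ^ (m - M))) + t * 2 ^ (m - M) * 2 ^ m := by omega
          _ = _ := by ring
  have h2 := h1 m le_rfl hN.le
  have h3 := Y_ge (g := g) m
  obtain ⟨s, hs⟩ : ∃ s, s = (∑ n ∈ Finset.range m, if N ≤ n then
      (Y g (n + 1) - 2 * Y g n) * 2 ^ (m - n) * g m (x.take n) else 0) := ⟨_, rfl⟩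
  rw [← hs] at h2 ⊢
  have h4 : (2 : ℕ) ^ (4 * q + 8) = 2 ^ m * 2 * 2 ^ (4 * q + 7 - m) := by
    rw [← pow_succ, ← pow_add]
    congr 1
    omega
  rw [h4]
  have h5 : 1 ≤ 2 ^ (4 * q + 7 - m) := Nat.one_le_two_pow
  obtain ⟨r, hr⟩ : ∃ r, r = 2 ^ (4 * q + 7 - m) := ⟨_, rfl⟩
  rw [← hr] at h5 ⊢
  rw [show m + 1 - m = 1 by omega, pow_one] at h2
  calc 2 * s + 2 ^ m * 2 * r * (Y g N * 2 ^ (m + 1 - N))
      ≤ 2 * s * r + 2 ^ m * 2 * r * (Y g N * 2 ^ (m + 1 - N)) :=
        Nat.add_le_add_right (Nat.le_mul_of_pos_right _ h5) _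
    _ = 2 * r * (s + 2 ^ m * (Y g N * 2 ^ (m + 1 - N))) := by ring
    _ ≤ 2 * r * (2 ^ m * (Y g m * 2)) := Nat.mul_le_mul_left _ h2
    _ = 2 ^ m * 2 * r * (2 * Y g m) := by ring
    _ ≤ _ := Nat.mul_le_mul_left _ (by omega)

theorem length_lst (hg1 : ∀ m x, g m x < 2 ^ x.length) (q m : ℕ) :
    4 ^ (q + 1) * (lst g q m).length ≤ 2 ^ m := by
  rcases Nat.lt_or_ge q m with h | h
  · have h1 := Y_not_bad (g := g) m
    unfold bad at h1
    rw [List.any_eq_false] at h1
    have h2 := h1 q (List.mem_range.2 h)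
    unfold badq at h2
    rw [decide_eq_true_eq, not_lt] at h2
    refine le_trans (Nat.mul_le_mul_left _ ?_) h2
    unfold lst
    have h3 := tot_ind m (fun x => tsts g (hist g m) q m x (Y g (m + 1)) = true)
    simp only [Bool.decide_eq_true] at h3
    rw [← h3]
    refine tot_mono fun x _ => ?_
    cases tsts g (hist g m) q m x (Y g (m + 1)) <;> simp
  · have h1 : lst g q m = [] := by
      unfold lst
      rw [List.filter_eq_nil_iff]
      intro x _
      rw [tsts_big hg1 h]
      simp
    rw [h1]
    simp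

/-- the machine -/
def mac (g : ℕ → List Bool → ℕ) (w : List Bool) : Option (List Bool) :=
  (lst g (ones w) ((afterOnes w).length + (2 * ones w + 2)))[val (afterOnes w)]?

theorem mac_comp (hg : Computable₂ g) : Computable (mac g) := by
  unfold mac
  have h1 : Computable ones := primrec_ones.to_comp
  have h2 : Computable afterOnes := primrec_afterOnes.to_comp
  have h3 : Computable fun w : List Bool => val (afterOnes w) := primrec_val.to_comp.comp h2
  have h4 : Computable fun w : List Bool =>
      lst g (ones w) ((afterOnes w).length + (2 * ones w + 2)) :=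
    (lst_comp hg).comp h1 (cadd (clength h2) (cadd (cmul (cconst 2) h1) (cconst 2)))
  exact cgetElem h4 h3

theorem short (hV : PlainUniversal V) (hg : Computable₂ g) (hg1 : ∀ m x, g m x < 2 ^ x.length) :
    ∃ c : ℕ, ∀ (q m : ℕ) (x : List Bool), x.length = m →
      tsts g (hist g m) q m x (Y g (m + 1)) = true → KU V x + q < m + c := by
  obtain ⟨c, hc⟩ := hV.2 (fun w => Part.ofOption (mac g w)) (mac_comp hg).ofOption
  refine ⟨c, fun q m x hx h => ?_⟩
  have h1 : x ∈ lst g q m := List.mem_filter.2 ⟨mem_allStr.2 hx, h⟩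
  have h2 := length_lst hg1 q m
  have h3 : 1 ≤ (lst g q m).length := List.length_pos_of_mem h1
  have h4 : (4 : ℕ) ^ (q + 1) = 2 ^ (2 * q + 2) := by
    rw [show (4 : ℕ) = 2 ^ 2 by norm_num, ← pow_mul]; congr 1
  rw [h4] at h2
  have h5 : 2 * q + 2 ≤ m := by
    by_contra hh
    push Not at hh
    have h6 : 2 ^ m < 2 ^ (2 * q + 2) := Nat.pow_lt_pow_right (by norm_num) hh
    have h7 : 2 ^ (2 * q + 2) ≤ 2 ^ (2 * q + 2) * (lst g q m).length := Nat.le_mul_of_pos_right _ h3
    omega
  obtain ⟨t, ht⟩ : ∃ t, m = t + (2 * q + 2) := ⟨m - (2 * q + 2), by omega⟩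
  have h6 : (lst g q m).length ≤ 2 ^ t := by
    have h7 : 2 ^ m = 2 ^ (2 * q + 2) * 2 ^ t := by rw [ht, pow_add, mul_comm]
    rw [h7] at h2
    exact Nat.le_of_mul_le_mul_left h2 (Nat.two_pow_pos _)
  obtain ⟨i, hi, hi2⟩ := List.getElem_of_mem h1
  obtain ⟨w, hw, hv⟩ := exists_val_eq i t (by omega)
  have hm : mac g (List.replicate q true ++ false :: w) = some x := by
    unfold mac
    rw [ones_replicate, afterOnes_replicate, hv, hw, ← ht, List.getElem?_eq_getElem hi, hi2]
  obtain ⟨τ', h9, h10⟩ := hc _ x (by rw [hm]; exact Part.mem_some _)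
  have h11 := KU_le h10
  simp only [List.length_append, List.length_replicate, List.length_cons, hw] at h9
  omega

end Pool.Agent.X234.KR
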