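import Pool.Agent.X234.KR.Mach
import Pool.Agent.X234.MC.Main

/-!
Two Kolmogorov random measures have high complexity at infinitely many common lengths.
-/

set_option autoImplicit false

namespace Pool.Agent.X234.KR

open Pool.Agent.Helper227 Finset Encodable Pool.Agent.Helper760.Kolm MeasureTheory
open Pool.Agent.Helper446.RE Pool.Agent.X234.MC

/-- the clock as a real number -/
noncomputable def yy (g : ℕ → List Bool → ℕ) (n : ℕ) : ℝ := (Y g n : ℝ) / 2 ^ n

variable {g : ℕ → List Bool → ℕ}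

theorem yy_diff (n : ℕ) : yy g (n + 1) - yy g n = ((Y g (n + 1) - 2 * Y g n : ℕ) : ℝ) / 2 ^ (n + 1) := by
  have h := Y_ge (g := g) n
  unfold yy
  rw [Nat.cast_sub (by omega)]
  push_cast
  rw [pow_succ]
  field_simp

theorem yy_lt (n : ℕ) : yy g n < yy g (n + 1) := by
  have h := Y_ge (g := g) n
  have h1 := yy_diff (g := g) n
  have h2 : (0 : ℝ) < ((Y g (n + 1) - 2 * Y g n : ℕ) : ℝ) / 2 ^ (n + 1) := by
    apply div_pos _ (by positivity)
    exact_mod_cast (by omega : 0 < Y g (n + 1) - 2 * Y g n)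
  linarith

theorem yy_mono : StrictMono (yy g) := strictMono_nat_of_lt_succ yy_lt

theorem sm_real {m N : ℕ} (x : List Bool) :
    (sm g (hist g m) m N x : ℝ) = 2 ^ (m + 1) *
      ∑ n ∈ Finset.Ico N m, (yy g (n + 1) - yy g n) * g m (x.take n) := by
  rw [sm_eq, ← Finset.sum_filter]
  have h1 : (Finset.range m).filter (fun n => N ≤ n) = Finset.Ico N m := by
    ext n; simp; omega
  rw [h1]
  push_cast
  rw [Finset.mul_sum]
  refine Finset.sum_congr rfl fun n hn => ?_
  rw [Finset.mem_Ico] at hn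
  rw [yy_diff]
  have h2 : (2 : ℝ) ^ (m + 1) = 2 ^ (m - n) * 2 ^ (n + 1) := by
    rw [← pow_add]; congr 1; omega
  rw [h2]
  field_simp

theorem sum_yy {N M : ℕ} (h : N ≤ M) :
    ∑ n ∈ Finset.Ico N M, (yy g (n + 1) - yy g n) = yy g M - yy g N := by
  rw [Finset.sum_Ico_eq_sub _ h, Finset.sum_range_sub, Finset.sum_range_sub]
  ring

theorem tst_real {q m N : ℕ} (hN : N < m) (x : List Bool)
    (h : tst g (hist g m) q m N x (Y g (m + 1)) = false) :
    2 * ∑ n ∈ Finset.Ico N m, (yy g (n + 1) - yy g n) * g m (x.take n) ≤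
      2 ^ (4 * q + 8) * (yy g (m + 1) - yy g N) := by
  unfold tst at h
  rw [decide_eq_false_iff_not, not_lt, getD_hist hN.le] at h
  have h1 : 2 * (sm g (hist g m) m N x : ℝ) + 2 ^ (4 * q + 8) * ((Y g N : ℝ) * 2 ^ (m + 1 - N)) ≤
      2 ^ (4 * q + 8) * (Y g (m + 1) : ℝ) := by exact_mod_cast h
  rw [sm_real] at h1
  have h2 : (Y g (m + 1) : ℝ) = 2 ^ (m + 1) * yy g (m + 1) := by
    unfold yy; field_simp
  have h3 : (Y g N : ℝ) * 2 ^ (m + 1 - N) = 2 ^ (m + 1) * yy g N := by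
    unfold yy
    have : (2 : ℝ) ^ (m + 1) = 2 ^ (m + 1 - N) * 2 ^ N := by
      rw [← pow_add]; congr 1; omega
    rw [this]; field_simp
  rw [h2, h3] at h1
  have h4 : (0 : ℝ) < 2 ^ (m + 1) := by positivity
  have h5 : 2 ^ (m + 1) * (2 * ∑ n ∈ Finset.Ico N m, (yy g (n + 1) - yy g n) * g m (x.take n)) ≤
      2 ^ (m + 1) * (2 ^ (4 * q + 8) * (yy g (m + 1) - yy g N)) := by
    linarith
  exact le_of_mul_le_mul_left h5 h4

theorem star {V : List Bool →. List Bool} (hV : PlainUniversal V) :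
    ∃ (y : ℕ → ℝ) (B : ℝ) (c : ℕ), StrictMono y ∧ (∀ n, y n ≤ B) ∧
      (∀ x : List Bool, KU V x ≤ x.length + c) ∧
      ∀ N M : ℕ, N ≤ M → ∃ m0, ∀ m, m0 ≤ m → ∀ x : List Bool, x.length = m →
        ∑ n ∈ Finset.Ico N M, (y (n + 1) - y n) * ((n : ℝ) - KU V (x.take n)) ≤
          (8 * ((m : ℝ) + c - KU V x) + 18) * (y (m + 1) - y N) := by
  obtain ⟨e, he⟩ := wst_univ (re_KU hV)
  obtain ⟨c1, hc1⟩ := KU_len hV
  obtain ⟨c2, hc2⟩ := short (g := gg e) hV (gg_comp e) (gg_lt e)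
  refine ⟨yy (gg e), 2, c1 + c2, yy_mono, ?_, fun x => (hc1 x).trans (by omega), ?_⟩
  · intro n
    unfold yy
    rw [div_le_iff₀ (by positivity)]
    have := Y_le (g := gg e) (fun m m' x h => gg_mono e m m' x h) (tot_gg hV he) n
    exact_mod_cast this
  intro N M hNM
  have hj : ∀ n ∈ Finset.range M, ∃ m0, ∀ m, m0 ≤ m → ∀ σ : List Bool, σ.length = n →
      n ≤ KU V σ + 2 * jj e m σ := by
    intro n _
    choose b hb using fun σ : List Bool => jj_ge he σ
    refine ⟨tot n b, fun m hm σ hσ => ?_⟩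
    rw [← hσ]
    refine hb σ m (le_trans ?_ hm)
    unfold tot
    exact List.single_le_sum (by simp) _ (List.mem_map_of_mem (mem_allStr.2 hσ))
  choose! b hb using hj
  refine ⟨N + M + 1 + ∑ n ∈ Finset.range M, b n, fun m hm x hx => ?_⟩
  have hNm : N < m := by omega
  have hMm : M ≤ m := by omega
  -- the level
  obtain ⟨q, hq⟩ : ∃ q, m + (c1 + c2) = KU V x + q := ⟨m + (c1 + c2) - KU V x, by
    have := hc1 x
    omega⟩
  have h1 : tsts (gg e) (hist (gg e) m) q m x (Y (gg e) (m + 1)) = false := by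
    rw [← Bool.not_eq_true]
    intro h
    have := hc2 q m x hx h
    omega
  unfold tsts at h1
  rw [List.any_eq_false] at h1
  have h2 := h1 N (List.mem_range.2 hNm)
  rw [Bool.not_eq_true] at h2
  have h3 := tst_real hNm x h2
  obtain ⟨y, hy⟩ : ∃ y, y = yy (gg e) := ⟨_, rfl⟩
  have hmono : StrictMono y := by rw [hy]; exact yy_mono
  rw [← hy] at h3 ⊢
  have hu : ∀ n, 0 ≤ y (n + 1) - y n := fun n => by
    have := hmono (Nat.lt_succ_self n)
    have h5 : y n < y (n + 1) := this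
    linarith
  -- from `gg` to `jj`
  have h4 : ∀ n, (2 : ℝ) ^ (4 * q + 8) * jj e m (x.take n) ≤
      gg e m (x.take n) + 2 ^ (4 * q + 8) * (4 * q + 8) := by
    intro n
    have := jj_le e m (x.take n) (4 * q + 8)
    exact_mod_cast this
  have h5 : (2 : ℝ) ^ (4 * q + 8) * ∑ n ∈ Finset.Ico N m, (y (n + 1) - y n) * jj e m (x.take n) ≤
      (∑ n ∈ Finset.Ico N m, (y (n + 1) - y n) * gg e m (x.take n)) +
        2 ^ (4 * q + 8) * (4 * q + 8) * (y m - y N) := by
    have h6 : y m - y N = ∑ n ∈ Finset.Ico N m, (y (n + 1) - y n) := by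
      rw [hy]; exact (sum_yy hNm.le).symm
    rw [h6, Finset.mul_sum, Finset.mul_sum, ← Finset.sum_add_distrib]
    refine Finset.sum_le_sum fun n _ => ?_
    have := mul_le_mul_of_nonneg_left (h4 n) (hu n)
    linarith
  have hyN : y N ≤ y m := hmono.monotone hNm.le
  have hym : y m ≤ y (m + 1) := hmono.monotone (Nat.le_succ m)
  have h6 : ∑ n ∈ Finset.Ico N m, (y (n + 1) - y n) * (jj e m (x.take n) : ℝ) ≤
      (4 * q + 9) * (y (m + 1) - y N) := by
    have h7 : (0 : ℝ) < 2 ^ (4 * q + 8) := by positivity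
    have h8 : (2 : ℝ) ^ (4 * q + 8) * ∑ n ∈ Finset.Ico N m, (y (n + 1) - y n) * jj e m (x.take n) ≤
        2 ^ (4 * q + 8) * ((4 * q + 9) * (y (m + 1) - y N)) := by
      have h9 : (0 : ℝ) ≤ 2 ^ (4 * q + 8) * (4 * q + 8) := by positivity
      have h10 := mul_le_mul_of_nonneg_left (sub_le_sub_right hym (y N)) h9
      have h11 : 0 ≤ 2 ^ (4 * q + 8) * (y (m + 1) - y N) :=
        mul_nonneg h7.le (by linarith)
      linarith
    exact le_of_mul_le_mul_left h8 h7
  have h7 : ∑ n ∈ Finset.Ico N M, (y (n + 1) - y n) * ((n : ℝ) - KU V (x.take n)) ≤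
      2 * ∑ n ∈ Finset.Ico N m, (y (n + 1) - y n) * (jj e m (x.take n) : ℝ) := by
    rw [Finset.mul_sum]
    have h8 : ∑ n ∈ Finset.Ico N M, (y (n + 1) - y n) * ((n : ℝ) - KU V (x.take n)) ≤
        ∑ n ∈ Finset.Ico N M, 2 * ((y (n + 1) - y n) * (jj e m (x.take n) : ℝ)) := by
      refine Finset.sum_le_sum fun n hn => ?_
      rw [Finset.mem_Ico] at hn
      have h9 : b n ≤ ∑ n ∈ Finset.range M, b n :=
        Finset.single_le_sum (f := b) (fun _ _ => Nat.zero_le _) (Finset.mem_range.2 hn.2)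
      have h10 := hb n (Finset.mem_range.2 hn.2) m (by omega) (x.take n)
        (by rw [List.length_take]; omega)
      have h11 : (n : ℝ) ≤ KU V (x.take n) + 2 * jj e m (x.take n) := by exact_mod_cast h10
      have h12 := mul_le_mul_of_nonneg_left (by linarith :
        (n : ℝ) - KU V (x.take n) ≤ 2 * jj e m (x.take n)) (hu n)
      linarith
    refine h8.trans (Finset.sum_le_sum_of_subset_of_nonneg (Finset.Ico_subset_Ico_right hMm) ?_)
    intro n _ _
    have := hu n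
    positivity
  have h8 : (q : ℝ) = (m : ℝ) + ((c1 + c2 : ℕ) : ℝ) - KU V x := by
    have : ((m + (c1 + c2) : ℕ) : ℝ) = ((KU V x + q : ℕ) : ℝ) := by rw [hq]
    push_cast at this
    push_cast
    linarith
  calc _ ≤ 2 * ∑ n ∈ Finset.Ico N m, (y (n + 1) - y n) * (jj e m (x.take n) : ℝ) := h7
    _ ≤ 2 * ((4 * q + 9) * (y (m + 1) - y N)) := by linarith
    _ = (8 * (q : ℝ) + 18) * (y (m + 1) - y N) := by ring
    _ = _ := by rw [h8]

/-- Kolmogorov random measures -/
def KRandom (V : List Bool →. List Bool) (μ : Measure (ℕ → Bool)) : Prop :=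
  ∃ d : ℝ, ∀ N : ℕ, ∃ n, N ≤ n ∧ (n : ℝ) - d ≤ avg μ (KU V) n

theorem take_pre' (X : ℕ → Bool) {n m : ℕ} (h : n ≤ m) : (pre X m).take n = pre X n :=
  take_pre _ _ _ h

section
variable {V : List Bool →. List Bool}

theorem star_int {y : ℕ → ℝ} {B : ℝ} {c : ℕ} (hy : StrictMono y) (hB : ∀ n, y n ≤ B)
    (hlen : ∀ x : List Bool, KU V x ≤ x.length + c)
    (h : ∀ N M : ℕ, N ≤ M → ∃ m0, ∀ m, m0 ≤ m → ∀ x : List Bool, x.length = m →
        ∑ n ∈ Finset.Ico N M, (y (n + 1) - y n) * ((n : ℝ) - KU V (x.take n)) ≤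
          (8 * ((m : ℝ) + c - KU V x) + 18) * (y (m + 1) - y N))
    (μ : Measure (ℕ → Bool)) [IsProbabilityMeasure μ] (hμ : KRandom V μ) :
    ∃ K : ℝ, ∀ N M : ℕ, N ≤ M → ∀ ω, (∀ n, y n ≤ ω) →
      ∑ n ∈ Finset.Ico N M, (y (n + 1) - y n) * ((n : ℝ) - avg μ (KU V) n) ≤ K * (ω - y N) := by
  obtain ⟨d, hd⟩ := hμ
  refine ⟨8 * (|d| + c) + 18, fun N M hNM ω hω => ?_⟩
  obtain ⟨m0, hm0⟩ := h N M hNM
  obtain ⟨m, hm, hdm⟩ := hd (m0 + M)
  have h1 := hm0 m (by omega)
  have hpos : 0 < y (m + 1) - y N ∨ 0 ≤ y (m + 1) - y N := by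
    right
    have := hy.monotone (show N ≤ m + 1 by omega)
    linarith
  have hyp : 0 ≤ y (m + 1) - y N := by
    rcases hpos with h | h
    · exact h.le
    · exact h
  have key : ∀ X : ℕ → Bool,
      ∑ n ∈ Finset.Ico N M, (y (n + 1) - y n) * ((n : ℝ) - KU V (pre X n)) ≤
        (8 * ((m : ℝ) + c - KU V (pre X m)) + 18) * (y (m + 1) - y N) := by
    intro X
    have h2 := h1 (pre X m) (by simp)
    refine le_trans (le_of_eq ?_) h2
    refine Finset.sum_congr rfl fun n hn => ?_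
    rw [Finset.mem_Ico] at hn
    rw [take_pre' X (by omega)]
  have hint : ∀ n, Integrable (fun X => (KU V (pre X n) : ℝ)) μ := fun n =>
    integrable_pre μ (fun s => (KU V s : ℝ)) n
  have hI : ∀ (n : ℕ) (a : ℝ), Integrable (fun X => a - (KU V (pre X n) : ℝ)) μ := fun n a =>
    (integrable_const a).sub (hint n)
  have hI2 : ∀ n : ℕ, Integrable (fun X => (y (n + 1) - y n) * ((n : ℝ) - KU V (pre X n))) μ :=
    fun n => (hI n _).const_mul _
  have hI3 : Integrable (fun X => 8 * ((m : ℝ) + c - KU V (pre X m))) μ := (hI m _).const_mul _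
  have h2 : ∫ X, (∑ n ∈ Finset.Ico N M, (y (n + 1) - y n) * ((n : ℝ) - KU V (pre X n))) ∂μ ≤
      ∫ X, (8 * ((m : ℝ) + c - KU V (pre X m)) + 18) * (y (m + 1) - y N) ∂μ := by
    refine integral_mono ?_ ?_ key
    · exact integrable_finsetSum _ fun n _ => hI2 n
    · exact (hI3.add (integrable_const _)).mul_const _
  have h3 : ∫ X, (∑ n ∈ Finset.Ico N M, (y (n + 1) - y n) * ((n : ℝ) - KU V (pre X n))) ∂μ =
      ∑ n ∈ Finset.Ico N M, (y (n + 1) - y n) * ((n : ℝ) - avg μ (KU V) n) := by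
    rw [integral_finsetSum _ fun n _ => hI2 n]
    refine Finset.sum_congr rfl fun n _ => ?_
    rw [integral_const_mul, integral_sub (integrable_const _) (hint n), avg_eq']
    simp
  have h4 : ∫ X, (8 * ((m : ℝ) + c - KU V (pre X m)) + 18) * (y (m + 1) - y N) ∂μ =
      (8 * ((m : ℝ) + c - avg μ (KU V) m) + 18) * (y (m + 1) - y N) := by
    rw [integral_mul_const, integral_add hI3
      (integrable_const _), integral_const_mul, integral_sub (integrable_const _) (hint m), avg_eq']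
    simp
  rw [h3, h4] at h2
  have h5 : (m : ℝ) + c - avg μ (KU V) m ≤ |d| + c := by
    have := le_abs_self d
    linarith
  have h6 : 0 ≤ |d| + (c : ℝ) := by positivity
  calc _ ≤ (8 * ((m : ℝ) + c - avg μ (KU V) m) + 18) * (y (m + 1) - y N) := h2
    _ ≤ (8 * (|d| + c) + 18) * (y (m + 1) - y N) :=
        mul_le_mul_of_nonneg_right (by linarith) hyp
    _ ≤ _ := mul_le_mul_of_nonneg_left (by linarith [hω (m + 1)]) (by linarith)

theorem avg_le {c : ℕ} (hlen : ∀ x : List Bool, KU V x ≤ x.length + c)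
    (μ : Measure (ℕ → Bool)) [IsProbabilityMeasure μ] (n : ℕ) : avg μ (KU V) n ≤ n + c := by
  rw [avg_eq']
  have h1 : ∫ X, (KU V (pre X n) : ℝ) ∂μ ≤ ∫ _, ((n : ℝ) + c) ∂μ := by
    refine integral_mono (integrable_pre μ (fun s => (KU V s : ℝ)) n) (integrable_const _) ?_
    intro X
    have := hlen (pre X n)
    simp only [length_pre] at this
    show (KU V (pre X n) : ℝ) ≤ (n : ℝ) + c
    exact_mod_cast this
  simpa using h1

/-- infinitely many common lengths of high complexity -/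
theorem common (hV : PlainUniversal V) (μ ν : Measure (ℕ → Bool)) [IsProbabilityMeasure μ]
    [IsProbabilityMeasure ν] (hμ : KRandom V μ) (hν : KRandom V ν) :
    ∃ d : ℝ, ∀ N : ℕ, ∃ n, N ≤ n ∧ (n : ℝ) - d ≤ avg μ (KU V) n ∧
      (n : ℝ) - d ≤ avg ν (KU V) n := by
  obtain ⟨y, B, c, hy, hB, hlen, h⟩ := star hV
  obtain ⟨K1, hK1⟩ := star_int hy hB hlen h μ hμ
  obtain ⟨K2, hK2⟩ := star_int hy hB hlen h ν hν
  have hbdd : BddAbove (Set.range y) := ⟨B, by rintro _ ⟨n, rfl⟩; exact hB n⟩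
  obtain ⟨ω, hω⟩ : ∃ ω, ω = ⨆ n, y n := ⟨_, rfl⟩
  have hω1 : ∀ n, y n ≤ ω := fun n => by rw [hω]; exact le_ciSup hbdd n
  refine ⟨K1 + K2 + 1 + c, fun N => ?_⟩
  by_contra hcon
  push Not at hcon
  have h1 : ∀ n, N ≤ n → K1 + K2 + 1 ≤ ((n : ℝ) - avg μ (KU V) n) + ((n : ℝ) - avg ν (KU V) n) := by
    intro n hn
    by_contra h2
    push Not at h2
    have h3 := avg_le hlen μ n
    have h4 := avg_le hlen ν n
    have h5 := hcon n hn (by linarith)
    linarith
  have h2 : ∀ M, N ≤ M → (K1 + K2 + 1) * (y M - y N) ≤ (K1 + K2) * (ω - y N) := by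
    intro M hM
    have h3 := hK1 N M hM ω hω1
    have h4 := hK2 N M hM ω hω1
    have h5 : (K1 + K2 + 1) * (y M - y N) ≤ ∑ n ∈ Finset.Ico N M, (y (n + 1) - y n) *
        (((n : ℝ) - avg μ (KU V) n) + ((n : ℝ) - avg ν (KU V) n)) := by
      have h6 : y M - y N = ∑ n ∈ Finset.Ico N M, (y (n + 1) - y n) := by
        rw [Finset.sum_Ico_eq_sub _ hM, Finset.sum_range_sub, Finset.sum_range_sub]
        ring
      rw [h6, Finset.mul_sum]
      refine Finset.sum_le_sum fun n hn => ?_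
      rw [Finset.mem_Ico] at hn
      have h7 := hy.monotone (Nat.le_succ n)
      have h8 : 0 ≤ y (n + 1) - y n := by
        have : y n ≤ y (n + 1) := h7
        linarith
      have := mul_le_mul_of_nonneg_left (h1 n hn.1) h8
      linarith
    have h6 : ∑ n ∈ Finset.Ico N M, (y (n + 1) - y n) *
        (((n : ℝ) - avg μ (KU V) n) + ((n : ℝ) - avg ν (KU V) n)) =
        (∑ n ∈ Finset.Ico N M, (y (n + 1) - y n) * ((n : ℝ) - avg μ (KU V) n)) +
        ∑ n ∈ Finset.Ico N M, (y (n + 1) - y n) * ((n : ℝ) - avg ν (KU V) n) := by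
      rw [← Finset.sum_add_distrib]
      exact Finset.sum_congr rfl fun n _ => by ring
    rw [h6] at h5
    linarith
  have htend : Filter.Tendsto (fun M => (K1 + K2 + 1) * (y M - y N)) Filter.atTop
      (nhds ((K1 + K2 + 1) * (ω - y N))) := by
    have h3 : Filter.Tendsto y Filter.atTop (nhds ω) := by
      rw [hω]
      exact tendsto_atTop_ciSup hy.monotone hbdd
    exact (h3.sub_const _).const_mul _
  have h3 : (K1 + K2 + 1) * (ω - y N) ≤ (K1 + K2) * (ω - y N) := by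
    refine le_of_tendsto htend ?_
    filter_upwards [Filter.eventually_ge_atTop N] with M hM
    exact h2 M hM
  have h4 : y N < ω := (hy (Nat.lt_succ_self N)).trans_le (hω1 _)
  linarith

theorem avg_convex (μ ν : Measure (ℕ → Bool)) [IsProbabilityMeasure μ]
    [IsProbabilityMeasure ν] (t : ℝ) (ht0 : 0 ≤ t) (ht1 : t ≤ 1) (F : List Bool → ℕ) (n : ℕ) :
    avg (ENNReal.ofReal t • μ + ENNReal.ofReal (1 - t) • ν) F n =
      t * avg μ F n + (1 - t) * avg ν F n := by
  unfold avg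
  rw [Finset.mul_sum, Finset.mul_sum, ← Finset.sum_add_distrib]
  refine Finset.sum_congr rfl fun x _ => ?_
  have h1 : (ENNReal.ofReal t • μ + ENNReal.ofReal (1 - t) • ν).real
      {X | ∀ i : Fin n, X i = x i} = t * μ.real {X | ∀ i : Fin n, X i = x i} +
        (1 - t) * ν.real {X | ∀ i : Fin n, X i = x i} := by
    unfold Measure.real
    rw [Measure.add_apply, Measure.smul_apply, Measure.smul_apply, smul_eq_mul, smul_eq_mul,
      ENNReal.toReal_add (ENNReal.mul_ne_top ENNReal.ofReal_ne_top (measure_ne_top _ _))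
        (ENNReal.mul_ne_top ENNReal.ofReal_ne_top (measure_ne_top _ _)),
      ENNReal.toReal_mul, ENNReal.toReal_mul, ENNReal.toReal_ofReal ht0,
      ENNReal.toReal_ofReal (by linarith)]
  rw [h1]
  ring

/-- convex combinations of Kolmogorov random measures are Kolmogorov random -/
theorem convex (hV : PlainUniversal V) (μ ν : Measure (ℕ → Bool)) [IsProbabilityMeasure μ]
    [IsProbabilityMeasure ν] (hμ : KRandom V μ) (hν : KRandom V ν) (t : ℝ) (ht0 : 0 ≤ t)
    (ht1 : t ≤ 1) : KRandom V (ENNReal.ofReal t • μ + ENNReal.ofReal (1 - t) • ν) := by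
  obtain ⟨d, hd⟩ := common hV μ ν hμ hν
  refine ⟨d, fun N => ?_⟩
  obtain ⟨n, hn, h1, h2⟩ := hd N
  refine ⟨n, hn, ?_⟩
  rw [avg_convex μ ν t ht0 ht1]
  have h3 := mul_le_mul_of_nonneg_left h1 ht0
  have h4 := mul_le_mul_of_nonneg_left h2 (by linarith : 0 ≤ 1 - t)
  linarith

end

end Pool.Agent.X234.KR
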