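import Pool.Agent.Helper227.Meas
import Pool.Agent.Helper446.Comp
import Pool.Agent.Helper344.CompList
import Pool.Agent.Helper750.DC.CP
import Pool.Agent.X234.OM.RT

/-!
Sums over the strings of a length, and their computability.
-/

set_option autoImplicit false

namespace Pool.Agent.X234.KR

open Pool.Agent.Helper227 Finset Encodable
open Pool.Agent.Helper446.RE

section comp
variable {α β : Type*} [Primcodable α] [Primcodable β]

theorem foldl_add {β : Type*} (g : β → ℕ) (l : List β) (s : ℕ) :
    l.foldl (fun s b => s + g b) s = s + (l.map g).sum := by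
  induction l generalizing s with
  | nil => simp
  | cons b l ih => rw [List.foldl_cons, ih, List.map_cons, List.sum_cons, add_assoc]

theorem comp_lsum {f : α → List β} {g : α → β → ℕ} (hf : Computable f) (hg : Computable₂ g) :
    Computable fun a => ((f a).map (g a)).sum := by
  have hh : Computable₂ (fun (a : α) (q : ℕ × β) => q.1 + g a q.2) := by
    have h1 : Computable fun x : α × (ℕ × β) => g x.1 x.2.2 :=
      hg.comp Computable.fst (Computable.snd.comp Computable.snd)
    exact cadd (Computable.fst.comp Computable.snd) h1
  refine (Pool.Agent.Helper344.CL.list_foldl hf (Computable.const 0) hh).of_eq fun a => ?_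
  have := foldl_add (g a) (f a) 0
  rw [zero_add] at this
  exact this

theorem comp_lrange {f : α → ℕ} (hf : Computable f) : Computable fun a => List.range (f a) :=
  (Primrec.list_range.to_comp).comp hf

theorem comp_csum {f : α → ℕ} {g : α → ℕ → ℕ} (hf : Computable f) (hg : Computable₂ g) :
    Computable fun a => ∑ i ∈ Finset.range (f a), g a i := by
  refine (comp_lsum (comp_lrange hf) hg).of_eq fun a => ?_
  generalize f a = n
  induction n with
  | zero => simp
  | succ n ih => rw [List.range_succ, List.map_append, List.sum_append, ih, Finset.sum_range_succ]; simp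

theorem comp_pow2 {g : α → ℕ} (hg : Computable g) : Computable fun a => 2 ^ (g a) :=
  (primrec_pow.comp (Primrec.const 2) Primrec.id).to_comp.comp hg

theorem comp_pow4 {g : α → ℕ} (hg : Computable g) : Computable fun a => 4 ^ (g a) :=
  (primrec_pow.comp (Primrec.const 4) Primrec.id).to_comp.comp hg

theorem comp_getD0 {u : α → List ℕ} {g : α → ℕ} (hu : Computable u)
    (hg : Computable g) : Computable fun a => (u a).getD (g a) 0 :=
  (Primrec.list_getD 0).to_comp.comp hu hg

theorem comp_take {u : α → List β} {g : α → ℕ} (hu : Computable u)
    (hg : Computable g) : Computable fun a => (u a).take (g a) :=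
  (Primrec.list_take.to_comp).comp hg hu

theorem comp_dlt {f g : α → ℕ} (hf : Computable f) (hg : Computable g) :
    Computable fun a => decide (f a < g a) := Pool.Agent.Helper344.CL.decide_lt'.comp hf hg

theorem comp_dle {f g : α → ℕ} (hf : Computable f) (hg : Computable g) :
    Computable fun a => decide (f a ≤ g a) := Pool.Agent.Helper344.CL.decide_le'.comp hf hg

end comp

/-- the sum of `F` over the strings of length `m` -/
def tot (m : ℕ) (F : List Bool → ℕ) : ℕ := ((allStr m).map F).sum

theorem comp_tot {α : Type*} [Primcodable α] {m : α → ℕ} {F : α → List Bool → ℕ}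
    (hm : Computable m) (hF : Computable₂ F) : Computable fun a => tot (m a) (F a) :=
  comp_lsum (primrec_allStr.to_comp.comp hm) hF

theorem tot_mono {m : ℕ} {F G : List Bool → ℕ} (h : ∀ x : List Bool, x.length = m → F x ≤ G x) :
    tot m F ≤ tot m G := by
  unfold tot
  refine List.sum_le_sum fun x hx => h x (mem_allStr.1 hx)

theorem tot_congr {m : ℕ} {F G : List Bool → ℕ} (h : ∀ x : List Bool, x.length = m → F x = G x) :
    tot m F = tot m G :=
  le_antisymm (tot_mono fun x hx => (h x hx).le) (tot_mono fun x hx => (h x hx).ge)

theorem tot_const (m c : ℕ) : tot m (fun _ => c) = 2 ^ m * c := by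
  unfold tot
  rw [List.map_const', List.sum_replicate, length_allStr, smul_eq_mul]

theorem tot_mul (m c : ℕ) (F : List Bool → ℕ) : tot m (fun x => c * F x) = c * tot m F := by
  unfold tot
  rw [List.sum_map_mul_left]

theorem tot_add (m : ℕ) (F G : List Bool → ℕ) : tot m (fun x => F x + G x) = tot m F + tot m G := by
  unfold tot
  rw [List.sum_map_add]

theorem tot_sum {ι : Type*} (m : ℕ) (s : Finset ι) (F : ι → List Bool → ℕ) :
    tot m (fun x => ∑ i ∈ s, F i x) = ∑ i ∈ s, tot m (F i) := by
  classical
  induction s using Finset.induction_on with
  | empty => simp [tot_const]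
  | insert a s ha ih =>
    simp only [Finset.sum_insert ha]
    rw [tot_add, ih]

theorem tot_succ (m : ℕ) (F : List Bool → ℕ) :
    tot (m + 1) F = tot m (fun x => F (false :: x)) + tot m (fun x => F (true :: x)) := by
  rw [← tot_add]
  unfold tot
  simp only [allStr]
  generalize allStr m = l
  induction l with
  | nil => simp
  | cons a l ih => simp [ih]; omega

theorem tot_take {m M : ℕ} (h : m ≤ M) (F : List Bool → ℕ) :
    tot M (fun x => F (x.take m)) = 2 ^ (M - m) * tot m F := by
  induction m generalizing M F with
  | zero =>
    simp only [List.take_zero]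
    rw [tot_const]
    simp [tot, allStr]
  | succ m ih =>
    obtain ⟨M, rfl⟩ : ∃ M', M = M' + 1 := ⟨M - 1, by omega⟩
    rw [tot_succ, tot_succ]
    simp only [List.take_succ_cons]
    rw [ih (by omega) (fun x => F (false :: x)), ih (by omega) (fun x => F (true :: x)),
      show M + 1 - (m + 1) = M - m by omega]
    ring

/-- the number of strings of length `m` with a property -/
theorem tot_ind (m : ℕ) (P : List Bool → Prop) [DecidablePred P] :
    tot m (fun x => if P x then 1 else 0) = ((allStr m).filter P).length := by
  unfold tot
  generalize allStr m = l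
  induction l with
  | nil => simp
  | cons a l ih =>
    rw [List.map_cons, List.sum_cons, ih, List.filter_cons]
    by_cases h : P a
    · simp [h]; omega
    · simp [h]

end Pool.Agent.X234.KR
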